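import Pool.Agent.Lib.MP_c2fecd_an.Concrete

open Pool.Agent.Lib.MP_c2fecd_an

universe u

/-- The Lipschitz-free space over every pointed metric space admits an equivalent
locally uniformly rotund norm. -/
theorem Pool.Agent.Results.MP_c2fecd_an.FreeLUR.result
    (M : Type u) [MetricSpace M] (x0 : M) : AdmitsLUR (freeSpace x0) := by
  obtain ⟨N, h1, h2⟩ := (isFree_delta x0).lur
  exact ⟨N, ⟨1, 2, one_pos, two_pos, fun z => by simpa using h1 z⟩, h2⟩
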